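import Mathlib

set_option autoImplicit false

namespace Pool.Agent.H60.W

variable {X : Type*} [PseudoMetricSpace X]

/-- `r`-disjointness of a collection of subsets. -/
def RD (r : ℝ) (U : Set (Set X)) : Prop :=
  ∀ P ∈ U, ∀ Q ∈ U, P ≠ Q → ∀ x ∈ P, ∀ y ∈ Q, r ≤ dist x y

/-- uniformly bounded family of subsets -/
def Bdd (F : Set (Set X)) : Prop :=
  ∃ D : ℝ, ∀ A ∈ F, ∀ x ∈ A, ∀ y ∈ A, dist x y ≤ D

/-- `F` is `(r,1)`-decomposable over `Y` -/
def Dec2 (r : ℝ) (F Y : Set (Set X)) : Prop :=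
  ∀ A ∈ F, ∃ B : Fin 2 → Set X, A = (⋃ k, B k) ∧
    ∀ k, ∃ U : Set (Set X), ⋃₀ U = B k ∧ U ⊆ Y ∧ RD r U

/-- the least class of families containing the bounded ones and closed under 1-decomposition -/
def FD (F : Set (Set X)) : Prop :=
  ∀ E : Set (Set (Set X)), (∀ G : Set (Set X), Bdd G → G ∈ E) →
    (∀ G : Set (Set X), (∀ r : ℝ, 0 < r → ∃ Y ∈ E, Dec2 r G Y) → G ∈ E) → F ∈ E

theorem FD.of_bdd {F : Set (Set X)} (h : Bdd F) : FD F := fun _ h1 _ => h1 F h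

theorem FD.of_dec {F : Set (Set X)} (h : ∀ r : ℝ, 0 < r → ∃ Y, FD Y ∧ Dec2 r F Y) : FD F := by
  intro E h1 h2
  refine h2 F fun r hr => ?_
  obtain ⟨Y, hY, hd⟩ := h r hr
  exact ⟨Y, hY E h1 h2, hd⟩

theorem FD.induction {P : Set (Set X) → Prop} (h1 : ∀ G, Bdd G → P G)
    (h2 : ∀ G, (∀ r : ℝ, 0 < r → ∃ Y, P Y ∧ Dec2 r G Y) → P G) {F : Set (Set X)} (hF : FD F) :
    P F := by
  refine hF {G | P G} h1 ?_
  intro G hG
  exact h2 G fun r hr => by
    obtain ⟨Y, hY, hd⟩ := hG r hr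
    exact ⟨Y, hY, hd⟩

/-- all subsets of members of `F` -/
def sub (F : Set (Set X)) : Set (Set X) := {A | ∃ B ∈ F, A ⊆ B}

theorem RD.inter {r : ℝ} {U : Set (Set X)} (h : RD r U) (A : Set X) :
    RD r ((fun P => P ∩ A) '' U) := by
  rintro _ ⟨P, hP, rfl⟩ _ ⟨Q, hQ, rfl⟩ hne x hx y hy
  refine h P hP Q hQ (fun e => hne (by simp [e])) x hx.1 y hy.1

theorem RD.mono {r s : ℝ} {U : Set (Set X)} (h : RD r U) (hs : s ≤ r) : RD s U :=
  fun P hP Q hQ hne x hx y hy => hs.trans (h P hP Q hQ hne x hx y hy)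

theorem RD.singleton (r : ℝ) (A : Set X) : RD r {A} := by
  intro P hP Q hQ hne
  rw [Set.mem_singleton_iff] at hP hQ
  exact absurd (hP.trans hQ.symm) hne

theorem RD.empty (r : ℝ) : RD r (∅ : Set (Set X)) := fun P hP => absurd hP (Set.notMem_empty P)

/-- `FD` is inherited by families of subsets. -/
theorem FD.of_sub {F : Set (Set X)} (hF : FD F) : ∀ G : Set (Set X), G ⊆ sub F → FD G := by
  refine FD.induction (P := fun F => ∀ G : Set (Set X), G ⊆ sub F → FD G) ?_ ?_ hF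
  · rintro F ⟨D, hD⟩ G hG
    refine FD.of_bdd ⟨D, fun A hA x hx y hy => ?_⟩
    obtain ⟨B, hB, hAB⟩ := hG hA
    exact hD B hB x (hAB hx) y (hAB hy)
  · intro F h G hG
    refine FD.of_dec fun r hr => ?_
    obtain ⟨Y, hY, hd⟩ := h r hr
    refine ⟨sub Y, hY _ subset_rfl, ?_⟩
    intro A hA
    obtain ⟨A', hA', hAA'⟩ := hG hA
    obtain ⟨B, hB, hU⟩ := hd A' hA'
    refine ⟨fun k => B k ∩ A, ?_, fun k => ?_⟩
    · rw [← Set.iUnion_inter, ← hB]
      exact (Set.inter_eq_right.2 hAA').symm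
    · obtain ⟨U, hU1, hU2, hU3⟩ := hU k
      refine ⟨(fun P => P ∩ A) '' U, ?_, ?_, hU3.inter A⟩
      · ext x
        simp only [Set.mem_sUnion, Set.mem_image, exists_exists_and_eq_and, Set.mem_inter_iff,
          ← hU1]
        constructor
        · rintro ⟨P, hP, hx, hxA⟩
          exact ⟨⟨P, hP, hx⟩, hxA⟩
        · rintro ⟨⟨P, hP, hx⟩, hxA⟩
          exact ⟨P, hP, hx, hxA⟩
      · rintro _ ⟨P, hP, rfl⟩
        exact ⟨P, hU2 hP, Set.inter_subset_left⟩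

theorem Dec2.trivial {r : ℝ} {Y : Set (Set X)} {A : Set X} (hA : A ∈ Y) :
    ∃ B : Fin 2 → Set X, A = (⋃ k, B k) ∧
    ∀ k, ∃ U : Set (Set X), ⋃₀ U = B k ∧ U ⊆ Y ∧ RD r U := by
  refine ⟨fun k => if k = 0 then A else ∅, ?_, fun k => ?_⟩
  · ext x
    simp
  · by_cases hk : k = 0
    · refine ⟨{A}, by simp [hk], by simpa using hA, RD.singleton r A⟩
    · exact ⟨∅, by simp [hk], Set.empty_subset _, RD.empty r⟩

theorem FD.union_bdd {F : Set (Set X)} (hF : Bdd F) {G : Set (Set X)} (hG : FD G) :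
    FD (F ∪ G) := by
  refine FD.induction (P := fun G => FD (F ∪ G)) ?_ ?_ hG
  · rintro G ⟨D', hD'⟩
    obtain ⟨D, hD⟩ := hF
    refine FD.of_bdd ⟨max D D', ?_⟩
    rintro A (hA | hA) x hx y hy
    · exact (hD A hA x hx y hy).trans (le_max_left _ _)
    · exact (hD' A hA x hx y hy).trans (le_max_right _ _)
  · intro G h
    refine FD.of_dec fun r hr => ?_
    obtain ⟨Y, hY, hd⟩ := h r hr
    refine ⟨F ∪ Y, hY, ?_⟩
    rintro A (hA | hA)
    · exact Dec2.trivial (Or.inl hA)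
    · obtain ⟨B, hB, hU⟩ := hd A hA
      refine ⟨B, hB, fun k => ?_⟩
      obtain ⟨U, h1, h2, h3⟩ := hU k
      exact ⟨U, h1, h2.trans Set.subset_union_right, h3⟩

theorem FD.union {F G : Set (Set X)} (hF : FD F) (hG : FD G) : FD (F ∪ G) := by
  revert G
  refine FD.induction (P := fun F => ∀ {G : Set (Set X)}, FD G → FD (F ∪ G)) ?_ ?_ hF
  · intro F hF G hG
    exact FD.union_bdd hF hG
  · intro F h G hG
    refine FD.of_dec fun r hr => ?_
    obtain ⟨Y, hY, hd⟩ := h r hr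
    refine ⟨Y ∪ G, hY hG, ?_⟩
    rintro A (hA | hA)
    · obtain ⟨B, hB, hU⟩ := hd A hA
      refine ⟨B, hB, fun k => ?_⟩
      obtain ⟨U, h1, h2, h3⟩ := hU k
      exact ⟨U, h1, h2.trans Set.subset_union_left, h3⟩
    · exact Dec2.trivial (Or.inr hA)

end Pool.Agent.H60.W
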