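import Mathlib
import Pool.Agent.H60.W.Basic

set_option autoImplicit false

namespace Pool.Agent.H60.W

variable {X : Type*} [PseudoMetricSpace X]

/-- open `t`-neighbourhood -/
def Nb (t : ℝ) (V : Set X) : Set X := {x | ∃ v ∈ V, dist x v < t}

/-- the saturation operators -/
def T (U : ℕ → Set (Set X)) (t : ℕ → ℝ) : ℕ → Set X → Set X
  | 0 => fun B => B
  | i + 1 => fun B =>
      T U t i (B ∪ ⋃₀ {W | ∃ P ∈ U i, W = Nb (t i) (T U t i P) ∧ (W ∩ B).Nonempty})

theorem T_succ (U : ℕ → Set (Set X)) (t : ℕ → ℝ) (i : ℕ) (B : Set X) :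
    T U t (i + 1) B =
      T U t i (B ∪ ⋃₀ {W | ∃ P ∈ U i, W = Nb (t i) (T U t i P) ∧ (W ∩ B).Nonempty}) := rfl

theorem subset_T (U : ℕ → Set (Set X)) (t : ℕ → ℝ) (i : ℕ) (B : Set X) : B ⊆ T U t i B := by
  induction i generalizing B with
  | zero => exact subset_rfl
  | succ i ih =>
    rw [T_succ]
    exact Set.subset_union_left.trans (ih _)

theorem T_near (U : ℕ → Set (Set X)) (t e D : ℕ → ℝ) (he : ∀ i, 0 ≤ e i)
    (hD0 : ∀ i, 0 ≤ D i) (ht : ∀ i, 0 ≤ t i)
    (hD : ∀ i, ∀ P ∈ U i, ∀ x ∈ P, ∀ y ∈ P, dist x y ≤ D i)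
    (hs : ∀ i, e i + (D i + 2 * e i + 2 * t i) ≤ e (i + 1)) (i : ℕ) (B : Set X) :
    ∀ x ∈ T U t i B, ∃ b ∈ B, dist x b ≤ e i := by
  induction i generalizing B with
  | zero =>
    intro x hx
    exact ⟨x, hx, by simpa using he 0⟩
  | succ i ih =>
    intro x hx
    rw [T_succ] at hx
    obtain ⟨b', hb', hxb'⟩ := ih _ x hx
    have h1 := hs i
    have h2 := he i
    have h3 := hD0 i
    have h4 := ht i
    rcases hb' with hb' | ⟨W, ⟨P, hP, rfl, b, hbW, hbB⟩, hb'W⟩
    · exact ⟨b', hb', by linarith⟩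
    · refine ⟨b, hbB, ?_⟩
      obtain ⟨v, hv, hbv⟩ := hbW
      obtain ⟨v', hv', hbv'⟩ := hb'W
      obtain ⟨p, hp, hvp⟩ := ih _ v hv
      obtain ⟨p', hp', hvp'⟩ := ih _ v' hv'
      have h5 := hD i P hP p' hp' p hp
      have a1 := dist_triangle x b' b
      have a2 := dist_triangle b' v' b
      have a3 := dist_triangle v' p' b
      have a4 := dist_triangle p' p b
      have a5 := dist_triangle p v b
      rw [dist_comm p v, dist_comm v b] at a5
      linarith

theorem T_sep (U : ℕ → Set (Set X)) (t e D ρ : ℕ → ℝ) (he : ∀ i, 0 ≤ e i)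
    (hD0 : ∀ i, 0 ≤ D i) (ht : ∀ i, 2 * e i ≤ t i)
    (hD : ∀ i, ∀ P ∈ U i, ∀ x ∈ P, ∀ y ∈ P, dist x y ≤ D i)
    (hs : ∀ i, e i + (D i + 2 * e i + 2 * t i) ≤ e (i + 1))
    (hR : ∀ i, RD (ρ i) (U i)) (hρ : ∀ i, 3 * e i + 2 * t i ≤ ρ i)
    (i l : ℕ) (hl : l < i) (B P' : Set X) (hP' : P' ∈ U l) :
    Nb (t l) (T U t l P') ⊆ T U t i B ∨ ∀ x ∈ T U t i B, ∀ v ∈ T U t l P', t l / 2 ≤ dist x v := by
  have ht0 : ∀ i, 0 ≤ t i := fun i => by linarith [ht i, he i]
  have near := T_near U t e D he hD0 ht0 hD hs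
  induction i generalizing B with
  | zero => omega
  | succ i ih =>
    rw [T_succ]
    rcases Nat.lt_succ_iff_lt_or_eq.1 hl with h | rfl
    · exact ih h _
    · by_cases h : (Nb (t l) (T U t l P') ∩ B).Nonempty
      · left
        refine Set.Subset.trans ?_ (subset_T U t l _)
        refine Set.Subset.trans ?_ Set.subset_union_right
        exact Set.subset_sUnion_of_mem ⟨P', hP', rfl, h⟩
      · right
        intro x hx v hv
        obtain ⟨b', hb', hxb'⟩ := near _ _ x hx
        have h1 := ht l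
        have h2 := he l
        have h3 := hρ l
        rcases hb' with hb' | ⟨W, ⟨P, hP, rfl, hW⟩, b'W⟩
        · have h4 : t l ≤ dist b' v := by
            by_contra hc
            exact h ⟨b', ⟨v, hv, not_le.1 hc⟩, hb'⟩
          have a1 := dist_triangle b' x v
          rw [dist_comm b' x] at a1
          linarith
        · have hne : P ≠ P' := by
            rintro rfl
            exact h hW
          obtain ⟨u, hu, hbu⟩ := b'W
          obtain ⟨p, hp, hup⟩ := near _ _ u hu
          obtain ⟨p', hp', hvp'⟩ := near _ _ v hv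
          have h5 := hR l P hP P' hP' hne p hp p' hp'
          have a1 := dist_triangle p u p'
          have a2 := dist_triangle u b' p'
          have a3 := dist_triangle b' x p'
          have a4 := dist_triangle x v p'
          rw [dist_comm p u] at a1
          rw [dist_comm u b'] at a2
          rw [dist_comm b' x] at a3
          linarith

end Pool.Agent.H60.W
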