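import Mathlib
import Pool.Agent.H60.W.Sat

set_option autoImplicit false

namespace Pool.Agent.H60.W

variable {X : Type*} [PseudoMetricSpace X]

/-- decomposition of one set `A` into two `r`-disjoint unions of pieces, each of which is, for
every `i`, bounded in terms of `i` or disjoint from the sets of `U i`. -/
theorem piece (U : ℕ → Set (Set X)) (t e D ρ : ℕ → ℝ) (r : ℝ) (hr : 0 < r) (he : ∀ i, 0 ≤ e i)
    (hD0 : ∀ i, 0 ≤ D i) (ht : ∀ i, 2 * e i + 16 * r ≤ t i)
    (hD : ∀ i, ∀ P ∈ U i, ∀ x ∈ P, ∀ y ∈ P, dist x y ≤ D i)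
    (hs : ∀ i, e i + (D i + 2 * e i + 2 * t i) ≤ e (i + 1))
    (hR : ∀ i, RD (ρ i) (U i)) (hρ : ∀ i, 3 * e i + 2 * t i ≤ ρ i) (A : Set X) :
    ∃ V : Fin 2 → Set (Set X), A = (⋃ k, ⋃₀ V k) ∧ ∀ k, RD r (V k) ∧ ∀ Q ∈ V k, Q ⊆ A ∧
      ∀ i, (∀ x ∈ Q, ∀ y ∈ Q, dist x y ≤ e (i + 1) + 4 * r) ∨ ∀ x ∈ Q, ∀ P ∈ U i, x ∉ P := by
  have ht1 : ∀ i, 2 * e i ≤ t i := fun i => by linarith [ht i]
  have ht0 : ∀ i, 0 ≤ t i := fun i => by linarith [ht i, he i]
  have near := T_near U t e D he hD0 ht0 hD hs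
  have sep := T_sep U t e D ρ he hD0 ht1 hD hs hR hρ
  have sub := subset_T U t
  have hmono : Monotone e := monotone_nat_of_le_succ fun i => by
    linarith [hs i, he i, hD0 i, ht0 i]
  -- the diameter of the neighbourhoods
  have diam : ∀ i, ∀ P ∈ U i, ∀ x ∈ Nb (2 * r) (T U t i P), ∀ y ∈ Nb (2 * r) (T U t i P),
      dist x y ≤ D i + 2 * e i + 4 * r := by
    rintro i P hP x ⟨v, hv, hxv⟩ y ⟨w, hw, hyw⟩
    obtain ⟨p, hp, hvp⟩ := near i P v hv
    obtain ⟨q, hq, hwq⟩ := near i P w hw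
    have h1 := hD i P hP p hp q hq
    have a1 := dist_triangle x v y
    have a2 := dist_triangle v p y
    have a3 := dist_triangle p q y
    have a4 := dist_triangle q w y
    rw [dist_comm q w, dist_comm w y] at a4
    linarith
  have bdd : ∀ i j, j ≤ i → ∀ P ∈ U j, ∀ x ∈ Nb (2 * r) (T U t j P),
      ∀ y ∈ Nb (2 * r) (T U t j P), dist x y ≤ e (i + 1) + 4 * r := by
    intro i j hj P hP x hx y hy
    have h1 := diam j P hP x hx y hy
    have h2 := hs j
    have h3 : e (j + 1) ≤ e (i + 1) := hmono (by omega)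
    linarith [he j, ht0 j]
  -- sets of the same level
  have same : ∀ i, ∀ P ∈ U i, ∀ P' ∈ U i, P ≠ P' → ∀ x ∈ Nb (2 * r) (T U t i P),
      ∀ y ∈ Nb (2 * r) (T U t i P'), r ≤ dist x y := by
    rintro i P hP P' hP' hne x ⟨v, hv, hxv⟩ y ⟨w, hw, hyw⟩
    obtain ⟨p, hp, hvp⟩ := near i P v hv
    obtain ⟨q, hq, hwq⟩ := near i P' w hw
    have h1 := hR i P hP P' hP' hne p hp q hq
    have a1 := dist_triangle p v q
    have a2 := dist_triangle v x q
    have a3 := dist_triangle x y q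
    have a4 := dist_triangle y w q
    rw [dist_comm p v] at a1
    rw [dist_comm v x] at a2
    linarith [hρ i, ht i, he i]
  have self2 : ∀ i P, T U t i P ⊆ Nb (2 * r) (T U t i P) := fun i P x hx =>
    ⟨x, hx, by rw [dist_self]; linarith⟩
  let shell : ℕ → Set X → Set X := fun i P => (Nb (2 * r) (T U t i P) \ T U t i P) ∩ A
  let reg : ℕ → Set X → Set X := fun i P =>
    {x | x ∈ T U t i P ∧ x ∈ A ∧ ∀ l < i, ∀ P' ∈ U l, x ∉ Nb (2 * r) (T U t l P')}
  let inf : Set X := {x | x ∈ A ∧ ∀ i, ∀ P ∈ U i, x ∉ Nb (2 * r) (T U t i P)}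
  -- shells of different levels
  have shells : ∀ i, ∀ l < i, ∀ P ∈ U i, ∀ P' ∈ U l, ∀ x ∈ shell i P, ∀ y ∈ shell l P',
      r ≤ dist x y := by
    rintro i l hl P hP P' hP' x ⟨⟨⟨v, hv, hxv⟩, hx2⟩, -⟩ y ⟨⟨⟨w, hw, hyw⟩, -⟩, -⟩
    rcases sep i l hl P P' hP' with h | h
    · have h1 : t l ≤ dist x w := by
        by_contra hc
        exact hx2 (h ⟨w, hw, not_le.1 hc⟩)
      have a1 := dist_triangle x y w
      linarith [ht l, he l]
    · have h1 := h v hv w hw
      have a1 := dist_triangle v x w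
      have a2 := dist_triangle x y w
      rw [dist_comm v x] at a1
      linarith [ht l, he l]
  have regs : ∀ i, ∀ l < i, ∀ P, ∀ P' ∈ U l, ∀ x ∈ reg i P, ∀ y ∈ reg l P', r ≤ dist x y := by
    rintro i l hl P P' hP' x ⟨-, -, hx⟩ y ⟨hy, -, -⟩
    have h1 : 2 * r ≤ dist x y := by
      by_contra hc
      exact hx l hl P' hP' ⟨y, hy, not_le.1 hc⟩
    linarith
  have infs : ∀ i, ∀ P ∈ U i, ∀ x ∈ inf, ∀ y ∈ reg i P, r ≤ dist x y := by
    rintro i P hP x ⟨-, hx⟩ y ⟨hy, -, -⟩
    have h1 : 2 * r ≤ dist x y := by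
      by_contra hc
      exact hx i P hP ⟨y, hy, not_le.1 hc⟩
    linarith
  refine ⟨fun k => if k = 0 then {Q | ∃ i, ∃ P ∈ U i, Q = shell i P} else
    {Q | (∃ i, ∃ P ∈ U i, Q = reg i P) ∨ Q = inf}, ?_, ?_⟩
  · ext x
    simp only [Set.mem_iUnion, Fin.exists_fin_two]
    constructor
    · intro hxA
      by_cases h : ∃ i, ∃ P ∈ U i, x ∈ Nb (2 * r) (T U t i P)
      · classical
        obtain ⟨P, hP, hx⟩ := Nat.find_spec h
        by_cases hxT : x ∈ T U t (Nat.find h) P
        · right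
          refine ⟨reg (Nat.find h) P, by simpa using Or.inl ⟨_, P, hP, rfl⟩, hxT, hxA, ?_⟩
          intro l hl P' hP' hc
          exact Nat.find_min h hl ⟨P', hP', hc⟩
        · left
          refine ⟨shell (Nat.find h) P, by simpa using ⟨_, P, hP, rfl⟩, ⟨hx, hxT⟩, hxA⟩
      · right
        push Not at h
        refine ⟨inf, by simp, hxA, h⟩
    · rintro (⟨Q, hQ, hx⟩ | ⟨Q, hQ, hx⟩)
      · simp only [if_true, Set.mem_ofPred_eq] at hQ
        obtain ⟨i, P, hP, rfl⟩ := hQ
        exact hx.2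
      · simp only [one_ne_zero, if_false, Set.mem_ofPred_eq] at hQ
        rcases hQ with ⟨i, P, hP, rfl⟩ | rfl
        · exact hx.2.1
        · exact hx.1
  · intro k
    by_cases hk : k = 0
    · simp only [hk, if_true]
      constructor
      · rintro _ ⟨i, P, hP, rfl⟩ _ ⟨j, P', hP', rfl⟩ hne x hx y hy
        rcases lt_trichotomy i j with h | rfl | h
        · rw [dist_comm]
          exact shells j i h P' hP' P hP y hy x hx
        · refine same i P hP P' hP' (fun h => hne (by rw [h])) x hx.1.1 y hy.1.1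
        · exact shells i j h P hP P' hP' x hx y hy
      · rintro _ ⟨j, P, hP, rfl⟩
        refine ⟨Set.inter_subset_right, fun i => ?_⟩
        rcases le_or_gt j i with h | h
        · left
          intro x hx y hy
          exact bdd i j h P hP x hx.1.1 y hy.1.1
        · right
          rintro x ⟨⟨⟨v, hv, hxv⟩, hx2⟩, -⟩ P₀ hP₀ hxP
          have hx3 := sub i P₀ hxP
          rcases sep j i h P P₀ hP₀ with h | h
          · exact hx2 (h ⟨x, hx3, by rw [dist_self]; linarith [ht i, he i]⟩)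
          · have h1 := h v hv x hx3
            rw [dist_comm] at h1
            linarith [ht i, he i]
    · simp only [hk, if_false]
      constructor
      · rintro _ (⟨i, P, hP, rfl⟩ | rfl) _ (⟨j, P', hP', rfl⟩ | rfl) hne x hx y hy
        · rcases lt_trichotomy i j with h | rfl | h
          · rw [dist_comm]
            exact regs j i h P' P hP y hy x hx
          · refine same i P hP P' hP' (fun h => hne (by rw [h])) x (self2 _ _ hx.1) y
              (self2 _ _ hy.1)
          · exact regs i j h P P' hP' x hx y hy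
        · rw [dist_comm]
          exact infs i P hP y hy x hx
        · exact infs j P' hP' x hx y hy
        · exact absurd rfl hne
      · rintro _ (⟨j, P, hP, rfl⟩ | rfl)
        · refine ⟨fun x hx => hx.2.1, fun i => ?_⟩
          rcases le_or_gt j i with h | h
          · left
            intro x hx y hy
            exact bdd i j h P hP x (self2 _ _ hx.1) y (self2 _ _ hy.1)
          · right
            rintro x ⟨-, -, hx⟩ P₀ hP₀ hxP
            exact hx i h P₀ hP₀ (self2 _ _ (sub i P₀ hxP))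
        · refine ⟨fun x hx => hx.1, fun i => Or.inr ?_⟩
          rintro x ⟨-, hx⟩ P₀ hP₀ hxP
          exact hx i P₀ hP₀ (self2 _ _ (sub i P₀ hxP))

end Pool.Agent.H60.W
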