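import Mathlib
import Pool.Agent.H60.W.Piece

set_option autoImplicit false

namespace Pool.Agent.H60.W

variable {X : Type*} [PseudoMetricSpace X]

/-- for every `r` the members of `F` are unions of two `r`-disjoint unions over a family of
finite decomposition complexity and of `n` `r`-disjoint unions of uniformly bounded sets. -/
def Kdec (n : ℕ) (F : Set (Set X)) : Prop :=
  ∀ r : ℝ, 0 < r → ∃ Y, FD Y ∧ ∃ D : ℝ, ∀ A ∈ F,
    ∃ (V : Fin 2 → Set (Set X)) (W : Fin n → Set (Set X)),
      (∀ k, V k ⊆ Y ∧ RD r (V k)) ∧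
      (∀ k, RD r (W k) ∧ ∀ P ∈ W k, ∀ x ∈ P, ∀ y ∈ P, dist x y ≤ D) ∧
      A = (⋃ k, ⋃₀ V k) ∪ (⋃ k, ⋃₀ W k)

theorem Kdec.fd {n : ℕ} {F : Set (Set X)} (h : Kdec n F) : FD F := by
  induction n generalizing F with
  | zero =>
    refine FD.of_dec fun r hr => ?_
    obtain ⟨Y, hY, D, hD⟩ := h r hr
    refine ⟨Y, hY, fun A hA => ?_⟩
    obtain ⟨V, W, hV, -, hAV⟩ := hD A hA
    refine ⟨fun k => ⋃₀ V k, by simpa using hAV, fun k => ⟨V k, rfl, (hV k).1, (hV k).2⟩⟩
  | succ n ih =>
    refine FD.of_dec fun r hr => ?_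
    choose! Yf hY Df hD using h
    choose! V W hV hW hA using hD
    let Dg : ℝ → ℝ := fun x => max (Df x) 0
    let e : ℕ → ℝ := fun i => Nat.rec (motive := fun _ => ℝ) 0
      (fun i x => x + (Dg (11 * x + 80 * r + i) + 2 * x + 2 * (2 * x + 16 * r))) i
    let t : ℕ → ℝ := fun i => 2 * e i + 16 * r
    let ρ : ℕ → ℝ := fun i => 11 * e i + 80 * r + i
    have hes : ∀ i, e (i + 1) = e i + (Dg (ρ i) + 2 * e i + 2 * t i) := fun i => rfl
    have hDg : ∀ x, 0 ≤ Dg x := fun x => le_max_right _ _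
    have he : ∀ i, 0 ≤ e i := by
      intro i
      induction i with
      | zero => exact le_rfl
      | succ i ihe =>
        rw [hes]
        have := hDg (ρ i)
        simp only [t]
        linarith
    have hρpos : ∀ i, 0 < ρ i := fun i => by
      have := he i
      have h2 : (0 : ℝ) ≤ (i : ℝ) := Nat.cast_nonneg i
      simp only [ρ]
      linarith
    let Z : Set (Set X) := {Q | ∃ A ∈ F, Q ⊆ A ∧ ∀ i,
      (∀ x ∈ Q, ∀ y ∈ Q, dist x y ≤ e (i + 1) + 4 * r) ∨
        ∀ x ∈ Q, ∀ P ∈ W (ρ i) A (Fin.last n), x ∉ P}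
    refine ⟨Z, ih ?_, ?_⟩
    · intro r' hr'
      obtain ⟨i, hi⟩ := exists_nat_ge r'
      have hir : r' ≤ ρ i := by
        have := he i
        simp only [ρ]
        linarith
      refine ⟨sub (Yf (ρ i)) ∪ {Q | ∀ x ∈ Q, ∀ y ∈ Q, dist x y ≤ e (i + 1) + 4 * r}, ?_,
        Df (ρ i), ?_⟩
      · exact FD.union ((hY _ (hρpos i)).of_sub _ subset_rfl) (FD.of_bdd ⟨_, fun A hA => hA⟩)
      · rintro Q ⟨A, hAF, hQA, hQ⟩
        rcases hQ i with hQ | hQ
        · refine ⟨fun k => {Q}, fun k => ∅, fun k => ⟨?_, RD.singleton _ _⟩,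
            fun k => ⟨RD.empty _, by simp⟩, ?_⟩
          · rintro _ rfl
            exact Or.inr hQ
          · ext x
            simp
        · refine ⟨fun k => (fun P => P ∩ Q) '' V (ρ i) A k,
            fun k => (fun P => P ∩ Q) '' W (ρ i) A k.castSucc, fun k => ⟨?_, ?_⟩,
            fun k => ⟨?_, ?_⟩, ?_⟩
          · rintro _ ⟨P, hP, rfl⟩
            exact Or.inl ⟨P, (hV _ (hρpos i) A hAF k).1 hP, Set.inter_subset_left⟩
          · exact ((hV _ (hρpos i) A hAF k).2.inter Q).mono hir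
          · exact ((hW _ (hρpos i) A hAF k.castSucc).1.inter Q).mono hir
          · rintro _ ⟨P, hP, rfl⟩ x hx y hy
            exact (hW _ (hρpos i) A hAF k.castSucc).2 P hP x hx.1 y hy.1
          · ext x
            simp only [Set.mem_union, Set.mem_iUnion, Set.mem_sUnion, Set.mem_image,
              exists_exists_and_eq_and, Set.mem_inter_iff]
            constructor
            · intro hx
              have hxA := hQA hx
              rw [hA _ (hρpos i) A hAF] at hxA
              simp only [Set.mem_union, Set.mem_iUnion, Set.mem_sUnion] at hxA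
              rcases hxA with ⟨k, P, hP, hxP⟩ | ⟨k, P, hP, hxP⟩
              · exact Or.inl ⟨k, P, hP, hxP, hx⟩
              · right
                refine Fin.lastCases (motive := fun k => P ∈ W (ρ i) A k → _) ?_ ?_ k hP
                · intro hP
                  exact absurd hxP (hQ x hx P hP)
                · intro k hP
                  exact ⟨k, P, hP, hxP, hx⟩
            · rintro (⟨k, P, hP, hxP, hx⟩ | ⟨k, P, hP, hxP, hx⟩) <;> exact hx
    · intro A hAF
      obtain ⟨V', hV', hV''⟩ := piece (fun i => W (ρ i) A (Fin.last n)) t e (fun i => Dg (ρ i)) ρ r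
        hr he (fun i => hDg _) (fun i => le_rfl)
        (fun i P hP x hx y hy => ((hW _ (hρpos i) A hAF _).2 P hP x hx y hy).trans
          (le_max_left _ _))
        (fun i => (hes i).ge) (fun i => (hW _ (hρpos i) A hAF _).1)
        (fun i => by
          have := he i
          have h2 : (0 : ℝ) ≤ (i : ℝ) := Nat.cast_nonneg i
          simp only [ρ, t]
          linarith) A
      refine ⟨fun k => ⋃₀ V' k, hV', fun k => ⟨V' k, rfl, ?_, (hV'' k).1⟩⟩
      intro Q hQ
      exact ⟨A, hAF, ((hV'' k).2 Q hQ).1, ((hV'' k).2 Q hQ).2⟩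

end Pool.Agent.H60.W
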