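import Mathlib
import Pool.Agent.H60.W.Main

set_option autoImplicit false

namespace Pool.Agent.H60.W

variable {X : Type*} [PseudoMetricSpace X]

/-- `(N,R)`-large scale doubling subsets -/
def Lsd (N : ℕ) (R : ℝ) (W : Set X) : Prop :=
  ∀ x : X, ∀ s : ℝ, R ≤ s →
    ∃ c : Fin N → X, W ∩ Metric.ball x (2 * s) ⊆ (⋃ i, Metric.ball (c i) s)

theorem Lsd.cover {N : ℕ} {R : ℝ} {W : Set X} (h : Lsd N R W) {s : ℝ} (hs0 : 0 ≤ s)
    (hs : R ≤ s) (k : ℕ) (x : X) :
    ∃ c : (Fin k → Fin N) → X, W ∩ Metric.ball x (2 ^ k * s) ⊆ ⋃ i, Metric.ball (c i) s := by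
  induction k generalizing x with
  | zero =>
    refine ⟨fun _ => x, ?_⟩
    rintro y ⟨-, hy⟩
    simp only [pow_zero, one_mul] at hy
    exact Set.mem_iUnion.2 ⟨Fin.elim0, hy⟩
  | succ k ih =>
    have h2 : R ≤ 2 ^ k * s := by
      have : (1 : ℝ) ≤ 2 ^ k := one_le_pow₀ (by norm_num)
      nlinarith
    obtain ⟨c, hc⟩ := h x (2 ^ k * s) h2
    choose c' hc' using fun y => ih y
    refine ⟨fun f => c' (c (f 0)) (Fin.tail f), ?_⟩
    rintro y ⟨hyW, hy⟩
    rw [show (2 : ℝ) ^ (k + 1) * s = 2 * (2 ^ k * s) by ring] at hy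
    obtain ⟨i, hi⟩ := Set.mem_iUnion.1 (hc ⟨hyW, hy⟩)
    obtain ⟨j, hj⟩ := Set.mem_iUnion.1 (hc' (c i) ⟨hyW, hi⟩)
    refine Set.mem_iUnion.2 ⟨Fin.cons i j, ?_⟩
    simpa using hj

theorem exists_net (A : Set X) (s : ℝ) (hs : 0 < s) :
    ∃ Z ⊆ A, (∀ x ∈ Z, ∀ y ∈ Z, x ≠ y → s ≤ dist x y) ∧ ∀ a ∈ A, ∃ z ∈ Z, dist a z < s := by
  obtain ⟨Z, hZ⟩ := zorn_subset {Z : Set X | Z ⊆ A ∧ ∀ x ∈ Z, ∀ y ∈ Z, x ≠ y → s ≤ dist x y} (by
    intro c hc hchain
    refine ⟨⋃₀ c, ⟨Set.sUnion_subset fun Z hZ => (hc hZ).1, ?_⟩, fun Z hZ =>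
      Set.subset_sUnion_of_mem hZ⟩
    rintro x ⟨Z, hZ, hx⟩ y ⟨Z', hZ', hy⟩ hne
    rcases hchain.total hZ hZ' with h | h
    · exact (hc hZ').2 x (h hx) y hy hne
    · exact (hc hZ).2 x hx y (h hy) hne)
  refine ⟨Z, hZ.prop.1, hZ.prop.2, ?_⟩
  intro a ha
  by_contra hcon
  push Not at hcon
  have haZ : a ∉ Z := fun h => by
    have := hcon a h
    rw [dist_self] at this
    linarith
  have h1 : insert a Z ⊆ Z := hZ.le_of_ge (y := insert a Z) ⟨Set.insert_subset ha hZ.prop.1, by
    rintro x (rfl | hx) y (rfl | hy) hne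
    · exact absurd rfl hne
    · exact hcon y hy
    · rw [dist_comm]
      exact hcon x hx
    · exact hZ.prop.2 x hx y hy hne⟩ (Set.subset_insert _ _)
  exact haZ (h1 (Set.mem_insert _ _))

/-- successive maximal separated subsets -/
theorem exists_nets (Z : Set X) (s : ℝ) (hs : 0 < s) (M : ℕ) :
    ∃ C : ℕ → Set X, (∀ j, C j ⊆ Z ∧ ∀ x ∈ C j, ∀ y ∈ C j, x ≠ y → s ≤ dist x y) ∧
      (∀ i < M, ∀ j < M, i ≠ j → Disjoint (C i) (C j)) ∧
      ∀ z ∈ Z, (∃ j < M, z ∈ C j) ∨ ∀ j < M, ∃ z' ∈ C j, dist z z' < s := by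
  induction M with
  | zero => exact ⟨fun _ => ∅, by simp, by simp, by simp⟩
  | succ M ih =>
    obtain ⟨C, hC1, hC2, hC3⟩ := ih
    obtain ⟨Z', hZ', hZ1, hZ2⟩ := exists_net (Z \ ⋃ j < M, C j) s hs
    refine ⟨fun j => if j = M then Z' else C j, fun j => ?_, ?_, ?_⟩
    · by_cases hj : j = M
      · simp only [hj, if_true]
        exact ⟨hZ'.trans Set.sdiff_subset, hZ1⟩
      · simp only [hj, if_false]
        exact hC1 j
    · intro i hi j hj hij
      have aux : ∀ k < M, Disjoint Z' (C k) := by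
        intro k hk
        rw [Set.disjoint_left]
        intro x hx hxk
        exact (hZ' hx).2 (Set.mem_iUnion₂.2 ⟨k, hk, hxk⟩)
      by_cases h1 : i = M <;> by_cases h2 : j = M
      · exact absurd (h1.trans h2.symm) hij
      · simp only [h1, h2, if_true, if_false]
        exact aux j (by omega)
      · simp only [h1, h2, if_true, if_false]
        exact (aux i (by omega)).symm
      · simp only [h1, h2, if_false]
        exact hC2 i (by omega) j (by omega) hij
    · intro z hz
      rcases hC3 z hz with ⟨j, hj, hzj⟩ | h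
      · left
        refine ⟨j, by omega, ?_⟩
        have : j ≠ M := by omega
        simpa [this] using hzj
      · by_cases hzC : z ∈ ⋃ j < M, C j
        · obtain ⟨j, hj, hzj⟩ := Set.mem_iUnion₂.1 hzC
          left
          refine ⟨j, by omega, ?_⟩
          have : j ≠ M := by omega
          simpa [this] using hzj
        · right
          intro j hj
          by_cases hjM : j = M
          · simp only [hjM, if_true]
            exact hZ2 z ⟨hz, hzC⟩
          · simp only [hjM, if_false]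
            exact h j (by omega)

/-- a large scale doubling set is a union of `N ^ 3` `2 * s`-disjoint unions of sets of diameter at
most `2 * s`. -/
theorem Lsd.colours {N : ℕ} {R : ℝ} {W : Set X} (h : Lsd N R W) {s : ℝ} (hs0 : 0 < s)
    (hs : 2 * R ≤ s) :
    ∃ C : Fin (N ^ 3) → Set (Set X), W = (⋃ k, ⋃₀ C k) ∧ ∀ k, RD (2 * s) (C k) ∧
      ∀ P ∈ C k, P ⊆ W ∧ ∀ x ∈ P, ∀ y ∈ P, dist x y ≤ 2 * s := by
  obtain ⟨Z, hZW, hZ1, hZ2⟩ := exists_net W s hs0
  obtain ⟨C, hC1, hC2, hC3⟩ := exists_nets Z (4 * s) (by linarith) (N ^ 3)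
  have hcov : ∀ z ∈ Z, ∃ j < N ^ 3, z ∈ C j := by
    intro z hz
    rcases hC3 z hz with h1 | h1
    · exact h1
    · by_contra hcon
      push Not at hcon
      have : Nonempty X := ⟨z⟩
      choose! g hg hgd using h1
      obtain ⟨c, hc⟩ := h.cover (s := s / 2) (by linarith) (by linarith) 3 z
      -- the points `z` and `g j` are `s`-separated points of the ball
      let f : Option (Fin (N ^ 3)) → X := fun o => o.elim z (fun j => g j)
      have hfZ : ∀ o, f o ∈ Z := by
        intro o
        cases o with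
        | none => exact hz
        | some j => exact (hC1 _).1 (hg j j.2)
      have hfball : ∀ o, f o ∈ Metric.ball z (2 ^ 3 * (s / 2)) := by
        intro o
        cases o with
        | none => exact Metric.mem_ball_self (by positivity)
        | some j =>
          have := hgd j j.2
          rw [Metric.mem_ball, dist_comm]
          have h8 : (2 : ℝ) ^ 3 * (s / 2) = 4 * s := by ring
          rw [h8]
          exact this
      have hfinj : Function.Injective f := by
        intro o o' hoo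
        cases o with
        | none =>
          cases o' with
          | none => rfl
          | some j =>
            exfalso
            exact hcon j j.2 (by
              have : z = g j := hoo
              rw [this]
              exact hg j j.2)
        | some i =>
          cases o' with
          | none =>
            exfalso
            exact hcon i i.2 (by
              have : g i = z := hoo
              rw [← this]
              exact hg i i.2)
          | some j =>
            have hij : g i = g j := hoo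
            by_contra hne
            have hne' : (i : ℕ) ≠ j := fun e => hne (by rw [Fin.ext e])
            exact Set.disjoint_left.1 (hC2 i i.2 j j.2 hne') (hg i i.2) (hij ▸ hg j j.2)
      choose q hq using fun o => Set.mem_iUnion.1 (hc ⟨hZW (hfZ o), hfball o⟩)
      obtain ⟨o, o', hne, hqq⟩ := Fintype.exists_ne_map_eq_of_card_lt q (by simp)
      have h2 := hZ1 _ (hfZ o) _ (hfZ o') (fun e => hne (hfinj e))
      have h3 := hq o
      have h4 := hq o'
      rw [← hqq] at h4
      rw [Metric.mem_ball] at h3 h4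
      have := dist_triangle_right (f o) (f o') (c (q o))
      linarith
  refine ⟨fun k => {P | ∃ z ∈ C k, P = W ∩ Metric.ball z s}, ?_, fun k => ⟨?_, ?_⟩⟩
  · ext x
    simp only [Set.mem_iUnion, Set.mem_sUnion, Set.mem_ofPred_eq]
    constructor
    · intro hx
      obtain ⟨z, hz, hxz⟩ := hZ2 x hx
      obtain ⟨j, hj, hzj⟩ := hcov z hz
      exact ⟨⟨j, hj⟩, _, ⟨z, hzj, rfl⟩, hx, hxz⟩
    · rintro ⟨k, _, ⟨z, -, rfl⟩, hx, -⟩
      exact hx
  · rintro _ ⟨z, hz, rfl⟩ _ ⟨z', hz', rfl⟩ hne x ⟨-, hx⟩ y ⟨-, hy⟩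
    have hzz : z ≠ z' := by
      rintro rfl
      exact hne rfl
    have h1 := (hC1 k).2 z hz z' hz' hzz
    rw [Metric.mem_ball] at hx hy
    have a1 := dist_triangle z x z'
    have a2 := dist_triangle x y z'
    rw [dist_comm z x] at a1
    linarith
  · rintro _ ⟨z, hz, rfl⟩
    refine ⟨Set.inter_subset_left, ?_⟩
    rintro x ⟨-, hx⟩ y ⟨-, hy⟩
    rw [Metric.mem_ball] at hx hy
    have := dist_triangle_right x y z
    linarith

end Pool.Agent.H60.W
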