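import Mathlib
import Pool.Agent.H60.W.Lsd

set_option autoImplicit false

namespace Pool.Agent.H60.W

variable {X : Type*} [PseudoMetricSpace X]

/-- splitting the doubling colours into uniformly bounded ones -/
theorem split {n N : ℕ} {r R : ℝ} (hr : 0 < r) (A : Set X)
    (B : Set X) (W : Fin n → Set (Set X)) (hW : ∀ k, RD r (W k) ∧ ∀ P ∈ W k, Lsd N R P)
    (hA : A = B ∪ (⋃ k, ⋃₀ W k)) :
    ∃ W' : Fin (n * N ^ 3) → Set (Set X),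
      (∀ k, RD r (W' k) ∧ ∀ P ∈ W' k, ∀ x ∈ P, ∀ y ∈ P, dist x y ≤ 2 * max (2 * R) r) ∧
      A = B ∪ (⋃ k, ⋃₀ W' k) := by
  have hs0 : 0 < max (2 * R) r := hr.trans_le (le_max_right _ _)
  choose C hC1 hC2 using fun (P : {P : Set X // Lsd N R P}) =>
    P.2.colours hs0 (le_max_left (2 * R) r)
  refine ⟨fun k => {Q | ∃ (P : Set X) (h : Lsd N R P), P ∈ W (finProdFinEquiv.symm k).1 ∧
    Q ∈ C ⟨P, h⟩ (finProdFinEquiv.symm k).2}, fun k => ⟨?_, ?_⟩, ?_⟩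
  · rintro Q ⟨P, h, hP, hQ⟩ Q' ⟨P', h', hP', hQ'⟩ hne x hx y hy
    by_cases hPP : P = P'
    · subst hPP
      have := (hC2 ⟨P, h⟩ _).1 Q hQ Q' hQ' hne x hx y hy
      have h2 : r ≤ max (2 * R) r := le_max_right _ _
      linarith
    · exact (hW _).1 P hP P' hP' hPP x (((hC2 ⟨P, h⟩ _).2 Q hQ).1 hx) y
        (((hC2 ⟨P', h'⟩ _).2 Q' hQ').1 hy)
  · rintro Q ⟨P, h, hP, hQ⟩
    exact ((hC2 ⟨P, h⟩ _).2 Q hQ).2
  · rw [hA]
    congr 1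
    ext x
    simp only [Set.mem_iUnion, Set.mem_sUnion]
    constructor
    · rintro ⟨k, P, hP, hx⟩
      have h := (hW k).2 P hP
      have hx' := hx
      rw [show P = _ from hC1 ⟨P, h⟩] at hx'
      simp only [Set.mem_iUnion, Set.mem_sUnion] at hx'
      obtain ⟨j, Q, hQ, hxQ⟩ := hx'
      refine ⟨finProdFinEquiv (k, j), Q, ⟨P, h, ?_, ?_⟩, hxQ⟩
      · simpa using hP
      · simpa using hQ
    · rintro ⟨k, Q, ⟨P, h, hP, hQ⟩, hx⟩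
      exact ⟨_, P, hP, ((hC2 ⟨P, h⟩ _).2 Q hQ).1 hx⟩

/-- weakly large scale doubling families have finite decomposition complexity -/
theorem fd_of_lsd {N : ℕ} {R : ℝ} {Y : Set (Set X)} (h : ∀ A ∈ Y, Lsd N R A) : FD Y := by
  refine Kdec.fd (n := 1 * N ^ 3) ?_
  intro r hr
  refine ⟨∅, FD.of_bdd ⟨0, by simp⟩, 2 * max (2 * R) r, fun A hA => ?_⟩
  obtain ⟨W', h1, h2⟩ := split (n := 1) (N := N) (R := R) hr A ∅ (fun _ => {A})
    (fun k => ⟨RD.singleton r A, fun P hP => by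
      rw [Set.mem_singleton_iff] at hP
      rw [hP]
      exact h A hA⟩) (by ext x; simp)
  exact ⟨fun _ => ∅, W', fun k => ⟨subset_rfl, RD.empty r⟩, h1, by simpa using h2⟩

theorem main_fd {n N : ℕ} {F : Set (Set X)}
    (h : ∀ r : ℝ, 0 < r → ∃ Y : Set (Set X), FD Y ∧ ∃ R : ℝ, ∀ A ∈ F,
      ∃ (V : Fin 2 → Set (Set X)) (W : Fin n → Set (Set X)),
        (∀ k, V k ⊆ Y ∧ RD r (V k)) ∧ (∀ k, RD r (W k) ∧ ∀ P ∈ W k, Lsd N R P) ∧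
        A = (⋃ k, ⋃₀ V k) ∪ (⋃ k, ⋃₀ W k)) : FD F := by
  refine Kdec.fd (n := n * N ^ 3) ?_
  intro r hr
  obtain ⟨Y, hY, R, hR⟩ := h r hr
  refine ⟨Y, hY, 2 * max (2 * R) r, fun A hA => ?_⟩
  obtain ⟨V, W, hV, hW, hAV⟩ := hR A hA
  obtain ⟨W', h1, h2⟩ := split hr A _ W hW hAV
  exact ⟨V, W', hV, h1, h2⟩

end Pool.Agent.H60.W
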